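import Pool.Agent.Helper16.Disk7.Defs

/-!
# The convex body

The support function is `s * (1 + ε * U n)` where `n` is the unit normal.
-/

namespace Pool.Agent.Helper16.Disk7

open MeasureTheory Metric Complex

/-- The inner product of the plane. -/
noncomputable def ip (z w : ℂ) : ℝ := (z * (starRingEnd ℂ) w).re

lemma ip_eq (z w : ℂ) : ip z w = z.re * w.re + z.im * w.im := by
  simp [ip, Complex.mul_re]

lemma ip_add_left (z z' w : ℂ) : ip (z + z') w = ip z w + ip z' w := by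
  simp only [ip_eq, Complex.add_re, Complex.add_im]; ring

lemma ip_sub_left (z z' w : ℂ) : ip (z - z') w = ip z w - ip z' w := by
  simp only [ip_eq, Complex.sub_re, Complex.sub_im]; ring

lemma ip_le_norm (z w : ℂ) (hw : ‖w‖ = 1) : ip z w ≤ ‖z‖ := by
  have h := Complex.re_le_norm (z * (starRingEnd ℂ) w)
  rw [norm_mul, Complex.norm_conj, hw, mul_one] at h
  exact h

lemma ip_mul_left (a z n : ℂ) : ip (a * z) n = ip z (n * (starRingEnd ℂ) a) := by
  simp only [ip_eq, Complex.mul_re, Complex.mul_im, Complex.conj_re, Complex.conj_im]; ring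

/-- The perturbation, as a function of the unit normal. -/
noncomputable def U (z : ℂ) : ℝ :=
  3 / 8 * (z ^ 6).re + 1 / 4 * (z ^ 12).re + 1 / 8 * (z ^ 18).re + 5 * (z ^ 3).im

/-- Its derivative with respect to the angle. -/
noncomputable def V (z : ℂ) : ℝ :=
  -(3 / 8 * 6 * (z ^ 6).im) - 1 / 4 * 12 * (z ^ 12).im - 1 / 8 * 18 * (z ^ 18).im
    + 5 * 3 * (z ^ 3).re

/-- The parameter of the perturbation. -/
noncomputable def ε : ℝ := 1 / 10 ^ 9

/-- The support function (on unit vectors). -/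
noncomputable def h (z : ℂ) : ℝ := 1 + ε * U z

/-- The error term of the first order expansion of `t ^ k`. -/
noncomputable def F (k : ℕ) (t : ℂ) : ℂ := t ^ k - (t.re : ℂ) - (k : ℂ) * I * (t.im : ℂ)

lemma F_succ (k : ℕ) (t : ℂ) (ht : ‖t‖ = 1) :
    F (k + 1) t = t * F k t + (1 - t.re : ℝ) * (-(k : ℂ) - ((k : ℂ) + 1) * t) := by
  have h1 : t.re ^ 2 + t.im ^ 2 = 1 := by
    have h2 := Complex.sq_norm t
    rw [ht, Complex.normSq_apply] at h2
    nlinarith
  have h2 : (t.re : ℂ) ^ 2 + (t.im : ℂ) ^ 2 = 1 := by exact_mod_cast h1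
  have h3 : t = (t.re : ℂ) + (t.im : ℂ) * I := (Complex.re_add_im t).symm
  have hI : (I : ℂ) ^ 2 = -1 := Complex.I_sq
  simp only [F]
  set x : ℂ := (t.re : ℂ)
  set y : ℂ := (t.im : ℂ)
  have hx : ((1 - t.re : ℝ) : ℂ) = 1 - x := by push_cast; rfl
  rw [hx]
  rw [pow_succ]
  push_cast
  have h4 : t = x + y * I := h3
  have h5 : t ^ k * t - x - ((k : ℂ) + 1) * I * y
      = t * (t ^ k - x - (k : ℂ) * I * y) + (t * x + (k : ℂ) * I * y * t - x
        - ((k : ℂ) + 1) * I * y) := by ring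
  rw [h5]
  congr 1
  rw [h4]
  linear_combination (-(k : ℂ)) * h2 + ((k : ℂ) * y ^ 2) * hI

lemma norm_F_le (k : ℕ) (t : ℂ) (ht : ‖t‖ = 1) :
    ‖F (k + 1) t‖ ≤ (((k : ℝ) + 1) ^ 2 - 1) * (1 - t.re) := by
  have hx : 0 ≤ 1 - t.re := by
    have := Complex.re_le_norm t
    linarith
  induction k with
  | zero =>
      have : F (0 + 1) t = 0 := by
        simp only [F]
        push_cast
        have h3 := Complex.re_add_im t
        linear_combination -h3
      rw [this]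
      simp
  | succ k ih =>
      rw [F_succ (k + 1) t ht]
      refine (norm_add_le _ _).trans ?_
      rw [norm_mul, ht, one_mul, norm_mul, Complex.norm_real, Real.norm_of_nonneg hx]
      have h1 : ‖(-((k + 1 : ℕ) : ℂ) - (((k + 1 : ℕ) : ℂ) + 1) * t)‖ ≤ 2 * (k : ℝ) + 3 := by
        refine (norm_sub_le _ _).trans ?_
        rw [norm_neg, norm_mul, ht, mul_one]
        have h2 : (((k + 1 : ℕ) : ℂ) + 1) = ((k + 2 : ℕ) : ℂ) := by push_cast; ring
        rw [h2, Complex.norm_natCast, Complex.norm_natCast]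
        push_cast
        linarith
      have h3 : (1 - t.re) * ‖(-((k + 1 : ℕ) : ℂ) - (((k + 1 : ℕ) : ℂ) + 1) * t)‖
          ≤ (1 - t.re) * (2 * (k : ℝ) + 3) := mul_le_mul_of_nonneg_left h1 hx
      push_cast at ih h3 ⊢
      nlinarith

/-- The first order estimate which makes `h` a support function. -/
lemma support_ineq (n t : ℂ) (hn : ‖n‖ = 1) (ht : ‖t‖ = 1) :
    h n * t.re + ε * V n * t.im ≤ h (n * t) := by
  have key : ∀ k : ℕ, (n * t) ^ (k + 1) = n ^ (k + 1) * (t.re : ℂ)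
      + ((k + 1 : ℕ) : ℂ) * I * n ^ (k + 1) * (t.im : ℂ) + n ^ (k + 1) * F (k + 1) t := by
    intro k
    rw [mul_pow]
    simp only [F]
    ring
  have hb : ∀ k : ℕ, ‖n ^ (k + 1) * F (k + 1) t‖ ≤ (((k : ℝ) + 1) ^ 2 - 1) * (1 - t.re) := by
    intro k
    rw [norm_mul, norm_pow, hn, one_pow, one_mul]
    exact norm_F_le k t ht
  have re_key : ∀ k : ℕ, ((n * t) ^ (k + 1)).re = (n ^ (k + 1)).re * t.re
      - (k + 1) * (n ^ (k + 1)).im * t.im + (n ^ (k + 1) * F (k + 1) t).re := by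
    intro k
    rw [key k, Complex.add_re, Complex.add_re]
    congr 1
    simp only [Complex.mul_re, Complex.mul_im, Complex.I_re, Complex.I_im, Complex.natCast_re,
      Complex.natCast_im, Complex.ofReal_re, Complex.ofReal_im]
    push_cast
    ring
  have im_key : ∀ k : ℕ, ((n * t) ^ (k + 1)).im = (n ^ (k + 1)).im * t.re
      + (k + 1) * (n ^ (k + 1)).re * t.im + (n ^ (k + 1) * F (k + 1) t).im := by
    intro k
    rw [key k, Complex.add_im, Complex.add_im]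
    congr 1
    simp only [Complex.mul_re, Complex.mul_im, Complex.I_re, Complex.I_im, Complex.natCast_re,
      Complex.natCast_im, Complex.ofReal_re, Complex.ofReal_im]
    push_cast
    ring
  have hx : 0 ≤ 1 - t.re := by
    have := Complex.re_le_norm t
    linarith
  have b6 := (abs_le.1 ((Complex.abs_re_le_norm _).trans (hb 5))).1
  have b12 := (abs_le.1 ((Complex.abs_re_le_norm _).trans (hb 11))).1
  have b18 := (abs_le.1 ((Complex.abs_re_le_norm _).trans (hb 17))).1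
  have b3 := (abs_le.1 ((Complex.abs_im_le_norm _).trans (hb 2))).1
  have r6 := re_key 5
  have r12 := re_key 11
  have r18 := re_key 17
  have r3 := im_key 2
  norm_num at b6 b12 b18 b3 r6 r12 r18 r3
  simp only [h, U, V, ε]
  rw [r6, r12, r18, r3]
  nlinarith

/-- The convex body with support function `s * h`. -/
def body (s : ℝ) : Set ℂ := {z | ∀ n : ℂ, ‖n‖ = 1 → ip z n ≤ s * h n}

/-- The support point in the direction `n`. -/
noncomputable def pt (s : ℝ) (n : ℂ) : ℂ := s * ((h n : ℂ) + (ε * V n : ℝ) * I) * n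

lemma ip_pt (s : ℝ) (n t : ℂ) (hn : ‖n‖ = 1) :
    ip (pt s n) (n * t) = s * (h n * t.re + ε * V n * t.im) := by
  have h1 : n.re ^ 2 + n.im ^ 2 = 1 := by
    have h2 := Complex.sq_norm n
    rw [hn, Complex.normSq_apply] at h2
    nlinarith
  simp only [ip_eq, pt, Complex.mul_re, Complex.mul_im, Complex.add_re, Complex.add_im,
    Complex.I_re, Complex.I_im, Complex.ofReal_re, Complex.ofReal_im]
  linear_combination (s * (h n * t.re + ε * V n * t.im)) * h1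

lemma pt_mem (s : ℝ) (hs : 0 ≤ s) (n : ℂ) (hn : ‖n‖ = 1) : pt s n ∈ body s := by
  intro m hm
  have h1 : n * ((starRingEnd ℂ) n * m) = m := by
    rw [← mul_assoc, Complex.mul_conj, Complex.normSq_eq_norm_sq, hn]
    simp
  have ht : ‖(starRingEnd ℂ) n * m‖ = 1 := by
    rw [norm_mul, Complex.norm_conj, hn, hm, one_mul]
  have h2 := ip_pt s n ((starRingEnd ℂ) n * m) hn
  rw [h1] at h2
  rw [h2]
  have h3 := support_ineq n ((starRingEnd ℂ) n * m) hn ht
  rw [h1] at h3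
  exact mul_le_mul_of_nonneg_left h3 hs

lemma ip_pt_self (s : ℝ) (n : ℂ) (hn : ‖n‖ = 1) : ip (pt s n) n = s * h n := by
  have h2 := ip_pt s n 1 hn
  rw [mul_one] at h2
  rw [h2]
  simp

/-! ### Elementary properties of `U` and `h` -/

lemma re_pow_six (z : ℂ) (hz : ‖z‖ = 1) : (z ^ 6).re = 1 - 2 * (z ^ 3).im ^ 2 := by
  have h0 : ‖z ^ 3‖ = 1 := by rw [norm_pow, hz, one_pow]
  have h1 : (z ^ 3).re ^ 2 + (z ^ 3).im ^ 2 = 1 := by
    have h2 := Complex.sq_norm (z ^ 3)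
    rw [h0, Complex.normSq_apply] at h2
    nlinarith
  have h3 : z ^ 6 = z ^ 3 * z ^ 3 := by ring
  rw [h3, Complex.mul_re]
  linarith

lemma re_sq (w : ℂ) (hw : ‖w‖ = 1) : (w ^ 2).re = 2 * w.re ^ 2 - 1 := by
  have h1 : w.re ^ 2 + w.im ^ 2 = 1 := by
    have h2 := Complex.sq_norm w
    rw [hw, Complex.normSq_apply] at h2
    nlinarith
  rw [sq, Complex.mul_re]
  linarith

lemma re_cube (w : ℂ) (hw : ‖w‖ = 1) : (w ^ 3).re = 4 * w.re ^ 3 - 3 * w.re := by
  have h1 : w.re ^ 2 + w.im ^ 2 = 1 := by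
    have h2 := Complex.sq_norm w
    rw [hw, Complex.normSq_apply] at h2
    nlinarith
  rw [pow_succ, sq, Complex.mul_re, Complex.mul_re, Complex.mul_im]
  linear_combination (-3 * w.re) * h1

lemma U_eq (z : ℂ) (hz : ‖z‖ = 1) :
    U z = 1 / 2 * ((z ^ 6).re ^ 3 + (z ^ 6).re ^ 2 - 1 / 2) + 5 * (z ^ 3).im := by
  have h0 : ‖z ^ 6‖ = 1 := by rw [norm_pow, hz, one_pow]
  have h12 : z ^ 12 = (z ^ 6) ^ 2 := by ring
  have h18 : z ^ 18 = (z ^ 6) ^ 3 := by ring
  rw [U, h12, h18, re_sq _ h0, re_cube _ h0]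
  ring

lemma abs_im_le_one (z : ℂ) (hz : ‖z‖ = 1) : |(z ^ 3).im| ≤ 1 := by
  refine (Complex.abs_im_le_norm _).trans ?_
  rw [norm_pow, hz, one_pow]

lemma abs_re_le_one (z : ℂ) (hz : ‖z‖ = 1) : |(z ^ 6).re| ≤ 1 := by
  refine (Complex.abs_re_le_norm _).trans ?_
  rw [norm_pow, hz, one_pow]

/-- The width is at least `2 - ε / 2`. -/
lemma U_add_neg (z : ℂ) (hz : ‖z‖ = 1) : -(1 / 2) ≤ U z + U (-z) := by
  have hz' : ‖-z‖ = 1 := by rw [norm_neg, hz]
  rw [U_eq z hz, U_eq (-z) hz']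
  have h6 : (-z) ^ 6 = z ^ 6 := by ring
  have h3 : (-z) ^ 3 = -z ^ 3 := by ring
  rw [h6, h3, Complex.neg_im]
  have hc := abs_le.1 (abs_re_le_one z hz)
  nlinarith [sq_nonneg (z ^ 6).re, mul_nonneg (sq_nonneg (z ^ 6).re) (by linarith [hc.1] :
    0 ≤ 1 + (z ^ 6).re)]

lemma U_bounds (z : ℂ) (hz : ‖z‖ = 1) : -6 ≤ U z ∧ U z ≤ 6 := by
  rw [U_eq z hz]
  have hc := abs_le.1 (abs_re_le_one z hz)
  have hs := abs_le.1 (abs_im_le_one z hz)
  set c := (z ^ 6).re
  set s := (z ^ 3).im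
  constructor
  · nlinarith [mul_nonneg (sq_nonneg c) (by linarith [hc.1] : 0 ≤ 1 + c)]
  · nlinarith [mul_nonneg (sq_nonneg c) (by linarith [hc.2] : 0 ≤ 1 - c),
      mul_nonneg (by linarith [hc.1] : 0 ≤ 1 + c) (by linarith [hc.2] : 0 ≤ 1 - c)]

/-- The key property of `U`: of two directions at an angle of sixty degrees, one has a large
value. Here `w` is any number with `w ^ 3 = -1`. -/
lemma U_max (z w : ℂ) (hz : ‖z‖ = 1) (hw : w ^ 3 = -1) (h1 : U z < 3 / 4)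
    (h2 : U (w * z) < 3 / 4) : False := by
  have hwn : ‖w‖ = 1 := by
    have h := congrArg norm hw
    rw [norm_pow, norm_neg, norm_one] at h
    exact (pow_eq_one_iff_of_nonneg (norm_nonneg w) (by norm_num)).1 h
  have hwz : ‖w * z‖ = 1 := by rw [norm_mul, hwn, hz, one_mul]
  rw [U_eq z hz] at h1
  rw [U_eq (w * z) hwz] at h2
  have h6 : (w * z) ^ 6 = z ^ 6 := by
    have : (w * z) ^ 6 = (w ^ 3) ^ 2 * z ^ 6 := by ring
    rw [this, hw]; ring
  have h3 : (w * z) ^ 3 = -z ^ 3 := by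
    have : (w * z) ^ 3 = w ^ 3 * z ^ 3 := by ring
    rw [this, hw]; ring
  rw [h6, h3, Complex.neg_im] at h2
  rw [re_pow_six z hz] at h1 h2
  have hs := abs_le.1 (abs_im_le_one z hz)
  set s := (z ^ 3).im
  rcases le_total 0 s with hs0 | hs0
  · nlinarith [mul_nonneg hs0 (by linarith [hs.2] : 0 ≤ 1 - s), mul_nonneg (mul_nonneg hs0 hs0)
      (by linarith [hs.2] : 0 ≤ 1 - s), mul_nonneg (mul_nonneg (mul_nonneg hs0 hs0)
        (mul_nonneg hs0 hs0)) (mul_nonneg (by linarith [hs.2] : 0 ≤ 1 - s)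
          (by linarith : 0 ≤ 1 + s))]
  · nlinarith [mul_nonneg (neg_nonneg.2 hs0) (by linarith [hs.1] : 0 ≤ 1 + s),
      mul_nonneg (mul_nonneg (neg_nonneg.2 hs0) (neg_nonneg.2 hs0))
      (by linarith [hs.1] : 0 ≤ 1 + s), mul_nonneg (mul_nonneg (mul_nonneg (neg_nonneg.2 hs0)
        (neg_nonneg.2 hs0)) (mul_nonneg (neg_nonneg.2 hs0) (neg_nonneg.2 hs0)))
        (mul_nonneg (by linarith [hs.1] : 0 ≤ 1 + s) (by linarith : 0 ≤ 1 - s))]

/-- `U` is Lipschitz on the unit circle. -/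
lemma U_lip (z w : ℂ) (hz : ‖z‖ = 1) (hw : ‖w‖ = 1) : |U z - U w| ≤ 30 * ‖z - w‖ := by
  have h3 : ‖z ^ 3 - w ^ 3‖ ≤ 3 * ‖z - w‖ := by
    have : z ^ 3 - w ^ 3 = (z ^ 2 + z * w + w ^ 2) * (z - w) := by ring
    rw [this, norm_mul]
    refine mul_le_mul_of_nonneg_right ?_ (norm_nonneg _)
    refine (norm_add_le _ _).trans ?_
    have := norm_add_le (z ^ 2) (z * w)
    rw [norm_pow, norm_mul, hz, hw] at this
    rw [norm_pow, hw]
    norm_num at this ⊢
    linarith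
  have h6 : ‖z ^ 6 - w ^ 6‖ ≤ 6 * ‖z - w‖ := by
    have : z ^ 6 - w ^ 6 = (z ^ 3 + w ^ 3) * (z ^ 3 - w ^ 3) := by ring
    rw [this, norm_mul]
    have h := norm_add_le (z ^ 3) (w ^ 3)
    rw [norm_pow, norm_pow, hz, hw] at h
    norm_num at h
    calc ‖z ^ 3 + w ^ 3‖ * ‖z ^ 3 - w ^ 3‖ ≤ 2 * (3 * ‖z - w‖) :=
          mul_le_mul h h3 (norm_nonneg _) (by norm_num)
      _ = 6 * ‖z - w‖ := by ring
  have hre : |(z ^ 6).re - (w ^ 6).re| ≤ 6 * ‖z - w‖ := by
    rw [← Complex.sub_re]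
    exact (Complex.abs_re_le_norm _).trans h6
  have him : |(z ^ 3).im - (w ^ 3).im| ≤ 3 * ‖z - w‖ := by
    rw [← Complex.sub_im]
    exact (Complex.abs_im_le_norm _).trans h3
  rw [U_eq z hz, U_eq w hw]
  have hc := abs_re_le_one z hz
  have hd := abs_re_le_one w hw
  set c := (z ^ 6).re
  set d := (w ^ 6).re
  set s := (z ^ 3).im
  set t := (w ^ 3).im
  have e1 : 1 / 2 * (c ^ 3 + c ^ 2 - 1 / 2) + 5 * s - (1 / 2 * (d ^ 3 + d ^ 2 - 1 / 2) + 5 * t)
      = 1 / 2 * ((c - d) * (c ^ 2 + c * d + d ^ 2 + c + d)) + 5 * (s - t) := by ring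
  rw [e1]
  refine (abs_add_le _ _).trans ?_
  rw [abs_mul, abs_mul, abs_mul]
  have e2 : |c ^ 2 + c * d + d ^ 2 + c + d| ≤ 5 := by
    rw [abs_le] at hc hd ⊢
    constructor
    · nlinarith [sq_nonneg (c + d + 1), sq_nonneg (c + 1), sq_nonneg (d + 1),
        mul_nonneg (by linarith [hc.1] : 0 ≤ 1 + c) (by linarith [hd.1] : 0 ≤ 1 + d)]
    · nlinarith [mul_nonneg (by linarith [hc.1] : 0 ≤ 1 + c) (by linarith [hc.2] : 0 ≤ 1 - c),
        mul_nonneg (by linarith [hd.1] : 0 ≤ 1 + d) (by linarith [hd.2] : 0 ≤ 1 - d),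
        sq_nonneg (c - d)]
  rw [abs_of_pos (by norm_num : (0 : ℝ) < 1 / 2), abs_of_pos (by norm_num : (0 : ℝ) < 5)]
  have e3 : |c - d| * |c ^ 2 + c * d + d ^ 2 + c + d| ≤ (6 * ‖z - w‖) * 5 :=
    mul_le_mul hre e2 (abs_nonneg _) (by positivity)
  nlinarith

lemma h_bounds (z : ℂ) (hz : ‖z‖ = 1) : 1 - 1 / 10 ^ 8 ≤ h z ∧ h z ≤ 1 + 1 / 10 ^ 8 := by
  obtain ⟨h1, h2⟩ := U_bounds z hz
  simp only [h, ε]
  constructor <;> norm_num <;> linarith

lemma h_add_neg (z : ℂ) (hz : ‖z‖ = 1) : 2 - ε / 2 ≤ h z + h (-z) := by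
  have h1 := U_add_neg z hz
  simp only [h, ε]
  norm_num
  linarith

end Pool.Agent.Helper16.Disk7
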