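import Pool.Agent.Helper16.Disk7.Extract

/-!
# The analytic core

There are no seven positions satisfying the inequalities extracted from a packing.
-/

namespace Pool.Agent.Helper16.Disk7

open MeasureTheory Metric Complex

/-- Pigeonhole: points of a half-open interval of length `k * d` at mutual distances at least
`d`. -/
lemma card_le_of_separated {ι : Type*} (S : Finset ι) (t : ι → ℝ) (a d : ℝ) (hd : 0 < d)
    (k : ℕ) (h1 : ∀ i ∈ S, a ≤ t i) (h2 : ∀ i ∈ S, t i < a + k * d)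
    (h3 : ∀ i ∈ S, ∀ j ∈ S, i ≠ j → d ≤ |t i - t j|) : S.card ≤ k := by
  by_contra hcon
  push Not at hcon
  have hlt : (Finset.range k).card < S.card := by rwa [Finset.card_range]
  obtain ⟨i, hi, j, hj, hij, hfl⟩ := Finset.exists_ne_map_eq_of_card_lt_of_maps_to hlt
    (f := fun i => ⌊(t i - a) / d⌋₊) (by
      intro i hi
      rw [Finset.coe_range, Set.mem_Iio]
      have h0 : 0 ≤ (t i - a) / d := div_nonneg (by linarith [h1 i hi]) hd.le
      rw [Nat.floor_lt h0, div_lt_iff₀ hd]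
      linarith [h2 i hi])
  have e1 : 0 ≤ (t i - a) / d := div_nonneg (by linarith [h1 i hi]) hd.le
  have e2 : 0 ≤ (t j - a) / d := div_nonneg (by linarith [h1 j hj]) hd.le
  have f1 := Nat.floor_le e1
  have f2 := Nat.lt_floor_add_one ((t i - a) / d)
  have f3 := Nat.floor_le e2
  have f4 := Nat.lt_floor_add_one ((t j - a) / d)
  rw [hfl] at f1 f2
  have g : |(t i - a) / d - (t j - a) / d| < 1 := by
    rw [abs_lt]
    constructor <;> linarith
  have g2 : (t i - a) / d - (t j - a) / d = (t i - t j) / d := by ring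
  rw [g2, abs_div, abs_of_pos hd, div_lt_one hd] at g
  exact absurd (h3 i hi j hj hij) (not_le.2 g)

/-- The small parameter. -/
noncomputable def δ : ℝ := 1 / 10 ^ 8

/-- The minimal angle. -/
noncomputable def d : ℝ := Real.pi / 3 - 4 * δ

lemma d_pos : 0 < d := by
  have := Real.pi_gt_three
  simp only [d, δ]
  norm_num
  linarith

/-- Angles less than `d` have a large cosine. -/
lemma cos_large (t : ℝ) (ht : |t| < d) : 1 / 2 + 2 * δ < Real.cos t := by
  have hpi := Real.pi_gt_three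
  have hpi4 := Real.pi_lt_four
  have hδ : δ = 1 / 10 ^ 8 := rfl
  have h1 : Real.cos d < Real.cos |t| := by
    refine Real.cos_lt_cos_of_nonneg_of_le_pi (abs_nonneg t) ?_ ht
    simp only [d, δ]
    linarith
  rw [Real.cos_abs] at h1
  refine lt_of_le_of_lt ?_ h1
  rw [d, Real.cos_sub, Real.cos_pi_div_three, Real.sin_pi_div_three]
  have h2 : 1 - (4 * δ) ^ 2 / 2 ≤ Real.cos (4 * δ) := Real.one_sub_sq_div_two_le_cos
  have h3 : 4 * δ - (4 * δ) ^ 3 / 6 < Real.sin (4 * δ) := by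
    have h30 : 0 < 4 * δ := by rw [hδ]; norm_num
    exact Real.sin_gt_sub_cube h30
  have h4 : (1.7 : ℝ) < √3 := Real.lt_sqrt_of_sq_lt (by norm_num)
  have h5 : 0 < Real.sin (4 * δ) := by
    refine lt_of_le_of_lt ?_ h3
    rw [hδ]; norm_num
  have h6 : 1.7 / 2 * Real.sin (4 * δ) ≤ √3 / 2 * Real.sin (4 * δ) :=
    mul_le_mul_of_nonneg_right (by linarith) h5.le
  refine le_trans ?_ (add_le_add (mul_le_mul_of_nonneg_left h2 (by norm_num)) h6)
  have h7 : 1.7 / 2 * (4 * δ - (4 * δ) ^ 3 / 6) ≤ 1.7 / 2 * Real.sin (4 * δ) :=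
    mul_le_mul_of_nonneg_left h3.le (by norm_num)
  refine le_trans ?_ (add_le_add_right h7 _)
  rw [hδ]
  norm_num

/-- The law of cosines and the separation of directions. -/
lemma cos_le_of_dist (r ρ c : ℝ) (hr : 1 - δ ≤ r) (hr' : r ≤ 2 + δ) (hρ : 1 - δ ≤ ρ)
    (hρ' : ρ ≤ 2 + δ) (hdist : (2 - 2 * δ) ^ 2 ≤ r ^ 2 + ρ ^ 2 - 2 * (r * ρ * c)) :
    c ≤ 1 / 2 + 2 * δ := by
  by_contra hcon
  push Not at hcon
  have hδ : δ = 1 / 10 ^ 8 := rfl
  have hδ0 : 0 < δ := by rw [hδ]; norm_num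
  have hr0 : 0 < r := by rw [hδ] at hr; norm_num at hr ⊢; linarith
  have hρ0 : 0 < ρ := by rw [hδ] at hρ; norm_num at hρ ⊢; linarith
  have h1 : r * ρ * (1 / 2 + 2 * δ) < r * ρ * c := mul_lt_mul_of_pos_left hcon (by positivity)
  have h2 : 0 ≤ (r - (1 - δ)) * (2 + δ - r) := mul_nonneg (by linarith) (by linarith)
  have h3 : 0 ≤ (ρ - (1 - δ)) * (2 + δ - ρ) := mul_nonneg (by linarith) (by linarith)
  have h4 : 0 ≤ (2 + δ - r) * (2 + δ - ρ) := mul_nonneg (by linarith) (by linarith)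
  rw [hδ] at hr hr' hρ hρ' hdist h1 h2 h3 h4
  norm_num at hr hr' hρ hρ' hdist h1 h2 h3 h4
  nlinarith

lemma norm_sub_sq_polar (r ρ α β : ℝ) :
    ‖(r : ℂ) * e α - ρ * e β‖ ^ 2 = r ^ 2 + ρ ^ 2 - 2 * (r * ρ * Real.cos (α - β)) := by
  rw [Complex.sq_norm, Complex.normSq_apply]
  simp only [Complex.sub_re, Complex.sub_im, Complex.mul_re, Complex.mul_im, Complex.ofReal_re,
    Complex.ofReal_im, e_re, e_im]
  rw [Real.cos_sub]
  have h1 := Real.sin_sq_add_cos_sq α
  have h2 := Real.sin_sq_add_cos_sq β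
  linear_combination r ^ 2 * h1 + ρ ^ 2 * h2

lemma polar (z : ℂ) : z = (‖z‖ : ℂ) * e (Complex.arg z) := by
  rw [e]
  exact (Complex.norm_mul_exp_arg_mul_I z).symm

lemma norm_e_sub_le (a b : ℝ) : ‖e a - e b‖ ≤ |a - b| := by
  have h1 : e a - e b = e b * (Complex.exp (I * (a - b : ℝ)) - 1) := by
    rw [mul_sub, mul_one]
    congr 1
    rw [e, e, ← Complex.exp_add]
    congr 1
    push_cast
    ring
  rw [h1, norm_mul, norm_e, one_mul]
  have := Real.norm_exp_I_mul_ofReal_sub_one_le (x := a - b)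
  simpa [Real.norm_eq_abs] using this

lemma e_add_int (θ : ℝ) (k : ℤ) : e (θ + k * (2 * Real.pi)) = e θ := by
  rw [e, e]
  have : ((θ + k * (2 * Real.pi) : ℝ) : ℂ) * I = θ * I + k * (2 * Real.pi * I) := by
    push_cast; ring
  rw [this, Complex.exp_add, Complex.exp_int_mul_two_pi_mul_I, mul_one]

/-- Every real has a representative modulo `2 * π` in `(a, a + 2 * π]`. -/
lemma exists_rep (θ a : ℝ) : ∃ k : ℤ, a < θ + k * (2 * Real.pi) ∧
    θ + k * (2 * Real.pi) ≤ a + 2 * Real.pi := by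
  have hpos : 0 < 2 * Real.pi := by positivity
  obtain ⟨k, hk, -⟩ := existsUnique_add_zsmul_mem_Ioc hpos θ a
  simp only [zsmul_eq_mul, Set.mem_Ioc] at hk
  exact ⟨k, hk.1, hk.2⟩

/-- The gap lemma. -/
lemma exists_in_arc (S : Finset (Fin 7)) (θ : Fin 7 → ℝ) (hS : 6 ≤ S.card)
    (hsep : ∀ i ∈ S, ∀ j ∈ S, i ≠ j → Real.cos (θ i - θ j) ≤ 1 / 2 + 2 * δ) (t₀ : ℝ) :
    ∃ i ∈ S, ∃ k : ℤ, t₀ < θ i + k * (2 * Real.pi) ∧
      θ i + k * (2 * Real.pi) ≤ t₀ + (Real.pi / 3 + 21 * δ) := by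
  by_contra hcon
  push Not at hcon
  choose k hk1 hk2 using fun i => exists_rep (θ i) t₀
  have h3 := card_le_of_separated S (fun i => θ i + k i * (2 * Real.pi))
    (t₀ + (Real.pi / 3 + 21 * δ)) d d_pos 5 (fun i hi => (hcon i hi (k i) (hk1 i)).le)
    (fun i hi => by
      have h4 := hk2 i
      have hδ : 0 < δ := by simp only [δ]; norm_num
      simp only [d]
      push_cast
      linarith)
    (fun i hi j hj hij => by
      by_contra hlt
      push Not at hlt
      have h5 := cos_large _ hlt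
      have h6 : Real.cos (θ i + k i * (2 * Real.pi) - (θ j + k j * (2 * Real.pi)))
          = Real.cos (θ i - θ j) := by
        have h7 : θ i + k i * (2 * Real.pi) - (θ j + k j * (2 * Real.pi))
            = (θ i - θ j) + ((k i - k j : ℤ) : ℝ) * (2 * Real.pi) := by push_cast; ring
        rw [h7, Real.cos_add_int_mul_two_pi]
      rw [h6] at h5
      exact absurd (hsep i hi j hj hij) (not_le.2 h5))
  omega

/-- Seven directions at mutual angles at least `d` are impossible. -/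
lemma not_seven (θ : Fin 7 → ℝ)
    (hsep : ∀ i j, i ≠ j → Real.cos (θ i - θ j) ≤ 1 / 2 + 2 * δ) : False := by
  choose k hk1 hk2 using fun i => exists_rep (θ i) (θ 0)
  have hcos : ∀ i j, i ≠ j → ∀ m : ℤ, d ≤ |θ i - θ j + m * (2 * Real.pi)| := by
    intro i j hij m
    by_contra hlt
    push Not at hlt
    have h5 := cos_large _ hlt
    rw [Real.cos_add_int_mul_two_pi] at h5
    exact absurd (hsep i j hij) (not_le.2 h5)
  have hpi := Real.pi_gt_three
  have hδ : δ = 1 / 10 ^ 8 := rfl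
  have h3 := card_le_of_separated (Finset.univ.erase (0 : Fin 7))
    (fun i => θ i + k i * (2 * Real.pi)) (θ 0 + d) d d_pos 5
    (fun i hi => by
      have h4 := hcos i 0 (Finset.ne_of_mem_erase hi) (k i)
      have h5 : θ i - θ 0 + k i * (2 * Real.pi) = θ i + k i * (2 * Real.pi) - θ 0 := by ring
      rw [h5, abs_of_pos (by linarith [hk1 i])] at h4
      linarith)
    (fun i hi => by
      have h4 := hcos i 0 (Finset.ne_of_mem_erase hi) (k i - 1)
      have h5 : θ i - θ 0 + ((k i - 1 : ℤ) : ℝ) * (2 * Real.pi)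
          = θ i + k i * (2 * Real.pi) - (θ 0 + 2 * Real.pi) := by push_cast; ring
      rw [h5, abs_of_nonpos (by linarith [hk2 i])] at h4
      have h6 : d = Real.pi / 3 - 4 * δ := rfl
      push_cast
      rw [hδ] at h6
      norm_num at h6
      linarith)
    (fun i hi j hj hij => by
      have h4 := hcos i j hij (k i - k j)
      have h5 : θ i - θ j + ((k i - k j : ℤ) : ℝ) * (2 * Real.pi)
          = θ i + k i * (2 * Real.pi) - (θ j + k j * (2 * Real.pi)) := by push_cast; ring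
      rw [h5] at h4
      exact h4)
  rw [Finset.card_erase_of_mem (Finset.mem_univ _), Finset.card_univ, Fintype.card_fin] at h3
  omega

end Pool.Agent.Helper16.Disk7
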