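import Mathlib

/-!
# Packing convex sets of unit perimeter into a disk: definitions

The Euclidean plane is the complex plane `ℂ`.
-/

namespace Pool.Agent.Helper16.Disk7

open MeasureTheory Metric

/-- A rigid motion of the plane (translations and rotations): `z ↦ a * z + b` with `‖a‖ = 1`. -/
def IsRigidMotion (g : ℂ → ℂ) : Prop :=
  ∃ a b : ℂ, ‖a‖ = 1 ∧ ∀ z, g z = a * z + b

/-- The set `D` accommodates the sets `K 0, …, K (k-1)`: there are rigid motions `g i` with
`g i (K i) ⊆ D` and with the interiors of the sets `g i (K i)` pairwise disjoint. -/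
def Accommodates {k : ℕ} (D : Set ℂ) (K : Fin k → Set ℂ) : Prop :=
  ∃ g : Fin k → ℂ → ℂ, (∀ i, IsRigidMotion (g i)) ∧ (∀ i, g i '' K i ⊆ D) ∧
    ∀ i j, i ≠ j → Disjoint (interior (g i '' K i)) (interior (g j '' K j))

/-- The value of the support function of `K` in the direction of angle `θ`, that is the supremum
of `z ↦ ⟨z, e ^ (i θ)⟩ = x cos θ + y sin θ` over `z = x + i y` in `K`. -/
noncomputable def supportFn (K : Set ℂ) (θ : ℝ) : ℝ :=
  sSup ((fun z : ℂ => z.re * Real.cos θ + z.im * Real.sin θ) '' K)

/-- The perimeter of a nonempty compact convex set in the plane, through the Cauchy formula: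
the integral over `[0, 2π]` of the support function.  (A disk of radius `r` has perimeter
`2 * π * r` and a segment of length `ℓ` has perimeter `2 * ℓ`.) -/
noncomputable def perimeter (K : Set ℂ) : ℝ :=
  ∫ θ in (0 : ℝ)..(2 * Real.pi), supportFn K θ

/-- Convex sets of perimeter `1`: nonempty compact convex sets whose perimeter is `1`. -/
structure IsUnitConvexSet (K : Set ℂ) : Prop where
  nonempty : K.Nonempty
  isCompact : IsCompact K
  convex : Convex ℝ K
  perimeter_eq : perimeter K = 1

/-- The statement `(P_k)`: every closed disk which accommodates `k` disks of perimeter `1`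
(that is of radius `1 / (2 * π)`) also accommodates any `k` convex sets of perimeter `1`. -/
def P (k : ℕ) : Prop :=
  ∀ (c : ℂ) (R : ℝ),
    Accommodates (closedBall c R)
      (fun _ : Fin k => closedBall (0 : ℂ) (1 / (2 * Real.pi))) →
    ∀ K : Fin k → Set ℂ, (∀ i, IsUnitConvexSet (K i)) → Accommodates (closedBall c R) K

end Pool.Agent.Helper16.Disk7
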