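import Pool.Agent.Helper16.Disk7.Support

/-!
# From a packing to inequalities; seven disks fit
-/

namespace Pool.Agent.Helper16.Disk7

open MeasureTheory Metric Complex

/-- Two convex sets with nonempty disjoint interiors are separated by a line. -/
lemma separate {A B : Set ℂ} (hA : Convex ℝ A) (hB : Convex ℝ B)
    (hAi : (interior A).Nonempty) (hBi : (interior B).Nonempty)
    (h : Disjoint (interior A) (interior B)) :
    ∃ n : ℂ, ‖n‖ = 1 ∧ ∀ a ∈ A, ∀ b ∈ B, ip a n ≤ ip b n := by
  obtain ⟨f, u, hf1, hf2⟩ := geometric_hahn_banach_open_open hA.interior isOpen_interior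
    hB.interior isOpen_interior h
  have hA' : ∀ a ∈ A, f a ≤ u := by
    intro a ha
    have h1 : a ∈ closure (interior A) := by
      rw [hA.closure_interior_eq_closure_of_nonempty_interior hAi]
      exact subset_closure ha
    exact closure_minimal (fun x hx => (hf1 x hx).le) (isClosed_le f.continuous continuous_const) h1
  have hB' : ∀ b ∈ B, u ≤ f b := by
    intro b hb
    have h1 : b ∈ closure (interior B) := by
      rw [hB.closure_interior_eq_closure_of_nonempty_interior hBi]
      exact subset_closure hb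
    exact closure_minimal (fun x hx => (hf2 x hx).le) (isClosed_le continuous_const f.continuous) h1
  set w : ℂ := ⟨f 1, f I⟩ with hw
  have hfw : ∀ z, f z = ip z w := by
    intro z
    have h1 : z = z.re • (1 : ℂ) + z.im • I := by
      simp [Complex.re_add_im]
    conv_lhs => rw [h1]
    rw [map_add, map_smul, map_smul, ip_eq]
    simp [hw]
  have hw0 : w ≠ 0 := by
    intro h0
    obtain ⟨a, ha⟩ := hAi
    obtain ⟨b, hb⟩ := hBi
    have h1 := hf1 a ha
    have h2 := hf2 b hb
    rw [hfw, h0] at h1 h2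
    simp [ip] at h1 h2
    linarith
  have hn : 0 < ‖w‖ := norm_pos_iff.2 hw0
  refine ⟨w / ‖w‖, ?_, ?_⟩
  · rw [norm_div, Complex.norm_real, norm_norm, div_self hn.ne']
  · intro a ha b hb
    have h3 : ∀ z : ℂ, ip z (w / ‖w‖) = ip z w / ‖w‖ := by
      intro z
      rw [ip_eq, ip_eq, Complex.div_ofReal_re, Complex.div_ofReal_im]
      ring
    rw [h3, h3, ← hfw, ← hfw]
    exact div_le_div_of_nonneg_right ((hA' a ha).trans (hB' b hb)) hn.le

lemma convex_image (g : ℂ → ℂ) (hg : IsRigidMotion g) {A : Set ℂ} (hA : Convex ℝ A) :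
    Convex ℝ (g '' A) := by
  obtain ⟨a, b, -, hg⟩ := hg
  rintro _ ⟨x, hx, rfl⟩ _ ⟨y, hy, rfl⟩ α β hα hβ hαβ
  refine ⟨α • x + β • y, hA hx hy hα hβ hαβ, ?_⟩
  rw [hg, hg, hg]
  have h1 : ((α : ℂ) + β) = 1 := by exact_mod_cast hαβ
  simp only [Complex.real_smul]
  linear_combination (-b) * h1

lemma ball_subset_image (s : ℝ) (hs : 0 < s) (g : ℂ → ℂ) (a b : ℂ) (ha : ‖a‖ = 1)
    (hg : ∀ z, g z = a * z + b) : ball b (s / 2) ⊆ g '' body s := by
  intro z hz
  have ha0 : a ≠ 0 := by
    intro h0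
    rw [h0, norm_zero] at ha
    norm_num at ha
  refine ⟨a⁻¹ * (z - b), ?_, ?_⟩
  · refine ball_subset_body s hs.le ?_
    rw [mem_closedBall_zero_iff, norm_mul, norm_inv, ha, inv_one, one_mul]
    rw [mem_ball, dist_eq_norm] at hz
    exact hz.le
  · rw [hg, mul_inv_cancel_left₀ ha0]
    ring

/-- The data extracted from a packing of copies of the body into a disk of three times the
radius. -/
theorem extract (s : ℝ) (hs : 0 < s)
    (h7 : Accommodates (closedBall (0 : ℂ) (3 * s)) (fun _ : Fin 7 => body s)) :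
    ∃ p a : Fin 7 → ℂ, (∀ i, ‖a i‖ = 1) ∧
      (∀ i, ∀ n : ℂ, ‖n‖ = 1 → ip (p i) n + h (n * (starRingEnd ℂ) (a i)) ≤ 3) ∧
      ∀ i j, i ≠ j → ∃ n : ℂ, ‖n‖ = 1 ∧
        ip (p i) n + h (n * (starRingEnd ℂ) (a i)) ≤
          ip (p j) n - h (-(n * (starRingEnd ℂ) (a j))) := by
  obtain ⟨g, hg, hsub, hdis⟩ := h7
  choose a b ha hg' using hg
  have hs' : (s : ℂ) ≠ 0 := by exact_mod_cast hs.ne'
  refine ⟨fun i => b i / s, a, ha, ?_, ?_⟩
  · intro i n hn
    set m := n * (starRingEnd ℂ) (a i) with hm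
    have hmn : ‖m‖ = 1 := by rw [hm, norm_mul, Complex.norm_conj, hn, ha, one_mul]
    have h1 : g i (pt s m) ∈ closedBall (0 : ℂ) (3 * s) :=
      hsub i ⟨_, pt_mem s hs.le m hmn, rfl⟩
    rw [mem_closedBall_zero_iff, hg'] at h1
    have h2 := (ip_le_norm _ n hn).trans h1
    rw [ip_add_left, ip_mul_left, ← hm, ip_pt_self s m hmn] at h2
    have h3 : ip (b i / s) n = ip (b i) n / s := by
      rw [ip_eq, ip_eq, Complex.div_ofReal_re, Complex.div_ofReal_im]
      ring
    rw [h3]
    have h4 : ip (b i) n / s ≤ (3 * s - s * h m) / s :=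
      div_le_div_of_nonneg_right (by linarith) hs.le
    have h5 : (3 * s - s * h m) / s = 3 - h m := by field_simp
    linarith
  · intro i j hij
    have hint : ∀ i, (interior (g i '' body s)).Nonempty := by
      intro i
      refine ⟨b i, ?_⟩
      rw [mem_interior]
      exact ⟨_, ball_subset_image s hs (g i) (a i) (b i) (ha i) (hg' i), isOpen_ball,
        mem_ball_self (by positivity)⟩
    have hgi : ∀ i, IsRigidMotion (g i) := fun i => ⟨a i, b i, ha i, hg' i⟩
    obtain ⟨n, hn, hsep⟩ := separate (convex_image (g i) (hgi i) (convex_body s))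
      (convex_image (g j) (hgi j) (convex_body s)) (hint i) (hint j) (hdis i j hij)
    refine ⟨n, hn, ?_⟩
    set m := n * (starRingEnd ℂ) (a i) with hm
    set m' := n * (starRingEnd ℂ) (a j) with hm'
    have hmn : ‖m‖ = 1 := by rw [hm, norm_mul, Complex.norm_conj, hn, ha, one_mul]
    have hmn' : ‖-m'‖ = 1 := by rw [norm_neg, hm', norm_mul, Complex.norm_conj, hn, ha, one_mul]
    have h1 := hsep _ ⟨pt s m, pt_mem s hs.le m hmn, rfl⟩ _ ⟨pt s (-m'), pt_mem s hs.le _ hmn', rfl⟩
    rw [hg', hg', ip_add_left, ip_add_left, ip_mul_left, ip_mul_left, ← hm, ← hm',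
      ip_pt_self s m hmn] at h1
    have h6 : ip (pt s (-m')) m' = -(s * h (-m')) := by
      have h7 := ip_pt_self s (-m') hmn'
      rw [← h7, ip_eq, ip_eq, Complex.neg_re, Complex.neg_im]
      ring
    rw [h6] at h1
    have h3 : ∀ i, ip (b i / s) n = ip (b i) n / s := by
      intro i
      rw [ip_eq, ip_eq, Complex.div_ofReal_re, Complex.div_ofReal_im]
      ring
    simp only [h3]
    have h4 : (s * h m + ip (b i) n) / s ≤ (-(s * h (-m')) + ip (b j) n) / s :=
      div_le_div_of_nonneg_right h1 hs.le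
    have h5 : (s * h m + ip (b i) n) / s = ip (b i) n / s + h m := by field_simp; ring
    have h8 : (-(s * h (-m')) + ip (b j) n) / s = ip (b j) n / s - h (-m') := by
      field_simp
      ring
    linarith

/-! ### Seven disks fit -/

/-- Abscissae of the centres. -/
def cx : Fin 7 → ℤ := ![0, 2, 1, -1, -2, -1, 1]

/-- Ordinates of the centres, divided by `√3`. -/
def cy : Fin 7 → ℤ := ![0, 0, 1, 1, 0, -1, -1]

/-- The centres of seven disks of radius `s` in a disk of radius `3 * s`. -/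
noncomputable def centre (s : ℝ) (i : Fin 7) : ℂ := ⟨s * cx i, s * (cy i * √3)⟩

lemma norm_centre_sub (s : ℝ) (i j : Fin 7) :
    ‖centre s i - centre s j‖ ^ 2 = s ^ 2 * ((cx i - cx j) ^ 2 + 3 * (cy i - cy j) ^ 2 : ℤ) := by
  have h3 : √3 ^ 2 = 3 := Real.sq_sqrt (by norm_num)
  rw [Complex.sq_norm, Complex.normSq_apply, Complex.sub_re, Complex.sub_im]
  simp only [centre]
  push_cast
  linear_combination (s ^ 2 * ((cy i : ℝ) - cy j) ^ 2) * h3

theorem seven_disks (s : ℝ) (hs : 0 < s) :
    Accommodates (closedBall (0 : ℂ) (3 * s)) (fun _ : Fin 7 => closedBall (0 : ℂ) s) := by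
  have himg : ∀ i : Fin 7, (fun z => 1 * z + centre s i) '' closedBall (0 : ℂ) s
      = closedBall (centre s i) s := by
    intro i
    ext z
    simp only [Set.mem_image, mem_closedBall, dist_eq_norm, sub_zero, one_mul]
    constructor
    · rintro ⟨w, hw, rfl⟩
      simpa using hw
    · intro hz
      exact ⟨z - centre s i, hz, by ring⟩
  refine ⟨fun i z => 1 * z + centre s i, fun i => ⟨1, centre s i, by simp, fun z => rfl⟩, ?_, ?_⟩
  · intro i
    rw [himg]
    have h0 : centre s 0 = 0 := by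
      apply Complex.ext <;> simp [centre, cx, cy]
    have h1 : ‖centre s i‖ ≤ 2 * s := by
      have h2 := norm_centre_sub s i 0
      rw [h0, sub_zero] at h2
      have h3 : ((cx i - cx 0) ^ 2 + 3 * (cy i - cy 0) ^ 2 : ℤ) ≤ 4 := by
        fin_cases i <;> decide
      have h4 : (((cx i - cx 0) ^ 2 + 3 * (cy i - cy 0) ^ 2 : ℤ) : ℝ) ≤ 4 := by exact_mod_cast h3
      refine abs_le_of_sq_le_sq' ?_ (by positivity) |>.2
      rw [h2]
      nlinarith [sq_nonneg s]
    refine closedBall_subset_closedBall' ?_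
    rw [dist_zero_right]
    linarith
  · intro i j hij
    rw [himg, himg, interior_closedBall _ hs.ne', interior_closedBall _ hs.ne']
    refine ball_disjoint_ball ?_
    rw [dist_eq_norm]
    have h3 : (4 : ℤ) ≤ ((cx i - cx j) ^ 2 + 3 * (cy i - cy j) ^ 2 : ℤ) := by
      revert i j
      decide
    have h4 : (4 : ℝ) ≤ (((cx i - cx j) ^ 2 + 3 * (cy i - cy j) ^ 2 : ℤ) : ℝ) := by
      exact_mod_cast h3
    have h2 := norm_centre_sub s i j
    refine abs_le_of_sq_le_sq' (b := ‖centre s i - centre s j‖) ?_ (norm_nonneg _) |>.2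
    rw [h2]
    nlinarith [sq_nonneg s]

end Pool.Agent.Helper16.Disk7
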