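import Pool.Agent.Helper16.Disk7.Core

/-!
# The seven positions do not exist
-/

namespace Pool.Agent.Helper16.Disk7

open MeasureTheory Metric Complex

lemma ip_self_div (z : ℂ) (h0 : z ≠ 0) : ip z (z / ‖z‖) = ‖z‖ := by
  have hn : 0 < ‖z‖ := norm_pos_iff.2 h0
  rw [ip_eq, Complex.div_ofReal_re, Complex.div_ofReal_im]
  have h4 := Complex.sq_norm z
  rw [Complex.normSq_apply] at h4
  field_simp
  nlinarith

lemma norm_self_div (z : ℂ) (h0 : z ≠ 0) : ‖z / ‖z‖‖ = 1 := by
  have hn : 0 < ‖z‖ := norm_pos_iff.2 h0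
  rw [norm_div, Complex.norm_real, norm_norm, div_self hn.ne']

lemma ip_smul_left (r : ℝ) (z w : ℂ) : ip ((r : ℂ) * z) w = r * ip z w := by
  simp only [ip_eq, Complex.mul_re, Complex.mul_im, Complex.ofReal_re, Complex.ofReal_im]
  ring

lemma norm_sub_sq (z w : ℂ) (hz : ‖z‖ = 1) (hw : ‖w‖ = 1) : ‖z - w‖ ^ 2 = 2 - 2 * ip z w := by
  have h1 := Complex.sq_norm z
  have h2 := Complex.sq_norm w
  rw [hz, Complex.normSq_apply] at h1
  rw [hw, Complex.normSq_apply] at h2
  rw [Complex.sq_norm, Complex.normSq_apply, ip_eq, Complex.sub_re, Complex.sub_im]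
  linarith

theorem core (p a : Fin 7 → ℂ) (ha : ∀ i, ‖a i‖ = 1)
    (h1 : ∀ i, ∀ n : ℂ, ‖n‖ = 1 → ip (p i) n + h (n * (starRingEnd ℂ) (a i)) ≤ 3)
    (h2 : ∀ i j, i ≠ j → ∃ n : ℂ, ‖n‖ = 1 ∧
        ip (p i) n + h (n * (starRingEnd ℂ) (a i)) ≤
          ip (p j) n - h (-(n * (starRingEnd ℂ) (a j)))) : False := by
  have hδ : δ = 1 / 10 ^ 8 := rfl
  have hδ0 : 0 < δ := by rw [hδ]; norm_num
  have hpi := Real.pi_gt_three
  have hpi4 : Real.pi < 3.15 := Real.pi_lt_d2
  have hun : ∀ n : ℂ, ‖n‖ = 1 → ∀ i, ‖n * (starRingEnd ℂ) (a i)‖ = 1 := by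
    intro n hn i
    rw [norm_mul, Complex.norm_conj, hn, ha, one_mul]
  have hlow : ∀ n : ℂ, ‖n‖ = 1 → 1 - δ ≤ h n := fun n hn => (h_bounds n hn).1
  -- distance from the origin
  have hr : ∀ i, ‖p i‖ ≤ 2 + δ := by
    intro i
    by_cases h0 : p i = 0
    · rw [h0, norm_zero]
      linarith
    · have e1 := h1 i _ (norm_self_div _ h0)
      rw [ip_self_div _ h0] at e1
      have e2 := hlow _ (hun _ (norm_self_div _ h0) i)
      linarith
  -- mutual distances
  have hdist : ∀ i j, i ≠ j → 2 - 2 * δ ≤ ‖p j - p i‖ := by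
    intro i j hij
    obtain ⟨n, hn, e1⟩ := h2 i j hij
    have e2 := hlow _ (hun n hn i)
    have e3 := hlow (-(n * (starRingEnd ℂ) (a j))) (by rw [norm_neg]; exact hun n hn j)
    have e4 := ip_le_norm (p j - p i) n hn
    rw [ip_sub_left] at e4
    linarith
  set θ : Fin 7 → ℝ := fun i => Complex.arg (p i) with hθ
  have hpol : ∀ i, p i = (‖p i‖ : ℂ) * e (θ i) := fun i => polar (p i)
  have hlaw : ∀ i j, i ≠ j → (2 - 2 * δ) ^ 2 ≤
      ‖p i‖ ^ 2 + ‖p j‖ ^ 2 - 2 * (‖p i‖ * ‖p j‖ * Real.cos (θ i - θ j)) := by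
    intro i j hij
    rw [← norm_sub_sq_polar, ← hpol, ← hpol]
    have e1 := hdist j i hij.symm
    refine pow_le_pow_left₀ ?_ e1 2
    rw [hδ]; norm_num
  have hsep : ∀ i j, i ≠ j → 1 - δ ≤ ‖p i‖ → 1 - δ ≤ ‖p j‖ →
      Real.cos (θ i - θ j) ≤ 1 / 2 + 2 * δ := fun i j hij hi hj =>
    cos_le_of_dist ‖p i‖ ‖p j‖ _ hi (hr i) hj (hr j) (hlaw i j hij)
  -- the central body
  obtain ⟨c, hc⟩ : ∃ c, ‖p c‖ < 1 - δ := by
    by_contra hcon
    push Not at hcon
    exact not_seven θ fun i j hij => hsep i j hij (hcon i) (hcon j)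
  have hout : ∀ i, i ≠ c → 1 - δ ≤ ‖p i‖ := by
    intro i hi
    by_contra hlt
    push Not at hlt
    have e1 := hdist c i (Ne.symm hi)
    have e2 := norm_sub_le (p i) (p c)
    linarith
  set S : Finset (Fin 7) := Finset.univ.erase c with hS
  have hScard : 6 ≤ S.card := by
    rw [hS, Finset.card_erase_of_mem (Finset.mem_univ _), Finset.card_univ, Fintype.card_fin]
  have hSsep : ∀ i ∈ S, ∀ j ∈ S, i ≠ j → Real.cos (θ i - θ j) ≤ 1 / 2 + 2 * δ :=
    fun i hi j hj hij => hsep i j hij (hout i (Finset.ne_of_mem_erase hi))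
      (hout j (Finset.ne_of_mem_erase hj))
  have harc := exists_in_arc S θ hScard hSsep
  -- the central body is close to the centre
  have hcen : ‖p c‖ ≤ 6 * δ := by
    obtain ⟨i, hi, k, hk1, hk2⟩ := harc (θ c - Real.pi / 6)
    have e1 := hlaw c i (Ne.symm (Finset.ne_of_mem_erase hi))
    have e2 : 3 / 4 ≤ Real.cos (θ c - θ i) := by
      have e3 : Real.cos (θ c - θ i) = Real.cos (θ i + k * (2 * Real.pi) - θ c) := by
        have : θ i + k * (2 * Real.pi) - θ c = (θ i - θ c) + k * (2 * Real.pi) := by ring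
        rw [this, Real.cos_add_int_mul_two_pi, ← Real.cos_neg]
        congr 1
        ring
      rw [e3]
      have e4 := Real.one_sub_sq_div_two_le_cos (x := θ i + k * (2 * Real.pi) - θ c)
      have e5 : (θ i + k * (2 * Real.pi) - θ c) ^ 2 ≤ 0.55 ^ 2 := by
        rw [sq_le_sq, abs_of_pos (by norm_num : (0 : ℝ) < 0.55), abs_le]
        rw [hδ] at hk2
        constructor
        · norm_num at hk1 hk2 ⊢
          linarith
        · norm_num at hk1 hk2 ⊢
          linarith
      norm_num at e5 ⊢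
      linarith
    have hρ := hr i
    have hρ' := hout i (Finset.ne_of_mem_erase hi)
    have e5 : ‖p c‖ * ‖p i‖ * (3 / 4) ≤ ‖p c‖ * ‖p i‖ * Real.cos (θ c - θ i) :=
      mul_le_mul_of_nonneg_left e2 (by positivity)
    have hc0 := norm_nonneg (p c)
    set r := ‖p c‖
    set ρ := ‖p i‖
    have e6 : 0 ≤ (2 + δ - ρ) * (2 + δ + ρ - 1.5 * r) :=
      mul_nonneg (by linarith) (by norm_num; linarith)
    have e7 : 0 ≤ r * (1 - δ - r) := mul_nonneg hc0 (by linarith)
    rw [hδ] at e6 e7 e1 hρ hρ' hc ⊢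
    norm_num at e6 e7 e1 hρ hρ' hc ⊢
    nlinarith
  -- the separation directions
  have hnorm : ∀ i, i ≠ c → ∃ n : ℂ, ‖n‖ = 1 ∧ ‖e (θ i) - n‖ ≤ 3 / 10 ^ 4 ∧
      ip (p c) n + ε * U (n * (starRingEnd ℂ) (a c)) ≤ ε / 2 := by
    intro i hi
    obtain ⟨n, hn, e1⟩ := h2 c i (Ne.symm hi)
    have e2 := hlow _ (hun n hn c)
    have e3 := hlow (-(n * (starRingEnd ℂ) (a i))) (by rw [norm_neg]; exact hun n hn i)
    refine ⟨n, hn, ?_, ?_⟩
    · have e4 : -‖p c‖ ≤ ip (p c) n := by
        have := ip_le_norm (-p c) n hn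
        rw [norm_neg] at this
        have e5 : ip (-p c) n = -ip (p c) n := by
          rw [ip_eq, ip_eq, Complex.neg_re, Complex.neg_im]; ring
        linarith
      have e5 : 2 - 8 * δ ≤ ip (p i) n := by linarith
      rw [hpol i, ip_smul_left] at e5
      have e6 : ‖p i‖ * ip (e (θ i)) n ≤ (2 + δ) * ip (e (θ i)) n := by
        have hpos : 0 ≤ ip (e (θ i)) n := by
          by_contra hneg
          push Not at hneg
          have := mul_nonpos_of_nonneg_of_nonpos (norm_nonneg (p i)) hneg.le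
          rw [hδ] at e5
          norm_num at e5
          linarith
        exact mul_le_mul_of_nonneg_right (hr i) hpos
      have e7 := norm_sub_sq (e (θ i)) n (norm_e _) hn
      refine abs_le_of_sq_le_sq' (a := ‖e (θ i) - n‖) ?_ (by norm_num) |>.2
      rw [e7]
      rw [hδ] at e5 e6
      norm_num at e5 e6 ⊢
      linarith
    · have e4 := h1 i n hn
      have e5 := h_add_neg _ (hun n hn i)
      have e6 : h (n * (starRingEnd ℂ) (a c)) = 1 + ε * U (n * (starRingEnd ℂ) (a c)) := rfl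
      linarith
  choose! ν hν1 hν2 hν3 using hnorm
  -- two consecutive directions on the side of the displacement of the central body
  obtain ⟨i, hi, k, hk1, hk2⟩ := harc (θ c - Real.pi / 3 - 21 * δ)
  obtain ⟨j, hj, l, hl1, hl2⟩ := harc (θ i + k * (2 * Real.pi))
  have hic := Finset.ne_of_mem_erase hi
  have hjc := Finset.ne_of_mem_erase hj
  set τ := θ i + k * (2 * Real.pi) with hτ
  set τ' := θ j + l * (2 * Real.pi) with hτ'
  have heτ : e τ = e (θ i) := e_add_int _ _
  have heτ' : e τ' = e (θ j) := e_add_int _ _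
  have hij : j ≠ i := by
    rintro rfl
    have e1 : τ' - τ = ((l - k : ℤ) : ℝ) * (2 * Real.pi) := by
      rw [hτ, hτ']; push_cast; ring
    have e2 : (0 : ℝ) < ((l - k : ℤ) : ℝ) * (2 * Real.pi) := by linarith
    have e3 : ((l - k : ℤ) : ℝ) * (2 * Real.pi) < 1 * (2 * Real.pi) := by
      rw [hδ] at hl2
      norm_num at hl2
      linarith
    have e4 : (0 : ℝ) < ((l - k : ℤ) : ℝ) := by
      by_contra hneg
      push Not at hneg
      have := mul_nonpos_of_nonpos_of_nonneg hneg (by positivity : 0 ≤ 2 * Real.pi)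
      linarith
    have e5 : ((l - k : ℤ) : ℝ) < 1 := lt_of_mul_lt_mul_right e3 (by positivity)
    have e6 : (0 : ℤ) < l - k := by exact_mod_cast e4
    have e7 : (l - k : ℤ) < 1 := by exact_mod_cast e5
    omega
  have hdd : d ≤ τ' - τ := by
    by_contra hlt
    push Not at hlt
    have e1 : |τ' - τ| < d := by rwa [abs_of_pos (by linarith)]
    have e2 := cos_large _ e1
    have e3 : Real.cos (τ' - τ) = Real.cos (θ j - θ i) := by
      have e4 : τ' - τ = (θ j - θ i) + ((l - k : ℤ) : ℝ) * (2 * Real.pi) := by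
        rw [hτ, hτ']; push_cast; ring
      rw [e4, Real.cos_add_int_mul_two_pi]
    rw [e3] at e2
    exact absurd (hSsep j hj i hi hij) (not_le.2 e2)
  -- the displacement is not opposite to these directions
  have hside : ∀ m, m ≠ c → ∀ t : ℝ, e t = e (θ m) → |t - θ c| ≤ 1.06 →
      U (ν m * (starRingEnd ℂ) (a c)) ≤ 1 / 2 := by
    intro m hm t ht habs
    have e1 : 1 / 4 ≤ Real.cos (t - θ c) := by
      have e4 := Real.one_sub_sq_div_two_le_cos (x := t - θ c)
      have e5 : (t - θ c) ^ 2 ≤ 1.06 ^ 2 := by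
        rw [sq_le_sq, abs_of_pos (by norm_num : (0 : ℝ) < 1.06)]
        exact habs
      norm_num at e5 ⊢
      linarith
    have e2 : ip (e (θ c)) (e t) = Real.cos (t - θ c) := by
      rw [ip_eq, e_re, e_re, e_im, e_im, Real.cos_sub]
      ring
    have e3 : ip (e (θ c)) (ν m) = ip (e (θ c)) (e t) - ip (e t - ν m) (e (θ c)) := by
      simp only [ip_eq, Complex.sub_re, Complex.sub_im]
      ring
    have e4 := ip_le_norm (e t - ν m) (e (θ c)) (norm_e _)
    have e5 := hν2 m hm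
    rw [← ht] at e5
    have e6 : 0 ≤ ip (e (θ c)) (ν m) := by
      rw [e3, e2]
      norm_num at e5 ⊢
      linarith
    have e7 : 0 ≤ ip (p c) (ν m) := by
      rw [hpol c, ip_smul_left]
      exact mul_nonneg (norm_nonneg _) e6
    have e8 := hν3 m hm
    have e9 : ε * U (ν m * (starRingEnd ℂ) (a c)) ≤ ε * (1 / 2) := by linarith
    have hε : 0 < ε := by simp only [ε]; norm_num
    exact le_of_mul_le_mul_left e9 hε
  have hUi := hside i hic τ heτ (by
    rw [abs_le]
    rw [hδ] at hk1 hk2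
    constructor
    · norm_num at hk1 hk2 ⊢
      linarith
    · norm_num at hk1 hk2 ⊢
      linarith)
  have hUj := hside j hjc τ' heτ' (by
    rw [abs_le]
    rw [hδ] at hk1 hk2 hl2
    constructor
    · norm_num at hk1 hk2 hl2 ⊢
      linarith
    · norm_num at hk1 hk2 hl2 ⊢
      linarith)
  -- the contradiction
  have hw3 : e (Real.pi / 3) ^ 3 = -1 := by
    rw [e_pow]
    have : ((3 : ℕ) : ℝ) * (Real.pi / 3) = Real.pi := by push_cast; ring
    rw [this, e, Complex.exp_pi_mul_I]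
  have hzi := hun (ν i) (hν1 i hic) c
  have hzj := hun (ν j) (hν1 j hjc) c
  have hwz : ‖e (Real.pi / 3) * (ν i * (starRingEnd ℂ) (a c))‖ = 1 := by
    rw [norm_mul, norm_e, hzi, one_mul]
  refine U_max (ν i * (starRingEnd ℂ) (a c)) (e (Real.pi / 3)) hzi hw3 (by linarith) ?_
  have f1 := U_lip _ _ hwz hzj
  have f2 : e (Real.pi / 3) * (ν i * (starRingEnd ℂ) (a c)) - ν j * (starRingEnd ℂ) (a c)
      = ((e (Real.pi / 3 + τ) - e τ') - e (Real.pi / 3) * (e (θ i) - ν i) + (e (θ j) - ν j))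
        * (starRingEnd ℂ) (a c) := by
    rw [← heτ', ← heτ, ← e_mul]
    ring
  have f3 : ‖e (Real.pi / 3) * (ν i * (starRingEnd ℂ) (a c)) - ν j * (starRingEnd ℂ) (a c)‖
      ≤ 21 * δ + 3 / 10 ^ 4 + 3 / 10 ^ 4 := by
    rw [f2, norm_mul, Complex.norm_conj, ha, mul_one]
    refine (norm_add_le _ _).trans (add_le_add ((norm_sub_le _ _).trans (add_le_add ?_ ?_)) ?_)
    · refine (norm_e_sub_le _ _).trans ?_
      have hd : d = Real.pi / 3 - 4 * δ := rfl
      rw [abs_le]
      constructor <;> linarith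
    · rw [norm_mul, norm_e, one_mul]
      exact hν2 i hic
    · exact hν2 j hjc
  have f4 := (abs_le.1 (f1.trans (mul_le_mul_of_nonneg_left f3 (by norm_num)))).2
  rw [hδ] at f4
  norm_num at f4
  linarith

/-- Seven copies of the body do not fit. -/
theorem not_accommodates (s : ℝ) (hs : 0 < s) :
    ¬ Accommodates (closedBall (0 : ℂ) (3 * s)) (fun _ : Fin 7 => body s) := by
  intro h7
  obtain ⟨p, a, ha, h1, h2⟩ := extract s hs h7
  exact core p a ha h1 h2

end Pool.Agent.Helper16.Disk7
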