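import Pool.Agent.Helper16.Disk7.Main

/-!
# Sanity checks for the definition of the perimeter
-/

namespace Pool.Agent.Helper16.Disk7

open MeasureTheory Metric Complex

/-- A disk of radius `r` has perimeter `2 * π * r`. -/
theorem perimeter_closedBall (c : ℂ) (r : ℝ) (hr : 0 ≤ r) :
    perimeter (closedBall c r) = 2 * Real.pi * r := by
  have key : ∀ θ : ℝ, supportFn (closedBall c r) θ = ip c (e θ) + r := by
    intro θ
    have key : ∀ z : ℂ, z.re * Real.cos θ + z.im * Real.sin θ = ip z (e θ) := by
      intro z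
      rw [ip_eq, e_re, e_im]
    rw [supportFn]
    simp only [key]
    refine IsGreatest.csSup_eq ⟨⟨c + r * e θ, ?_, ?_⟩, ?_⟩
    · rw [mem_closedBall, dist_eq_norm]
      simp [norm_e, abs_of_nonneg hr]
    · simp only
      rw [ip_add_left, ip_smul_left]
      have h2 : ip (e θ) (e θ) = 1 := by
        rw [ip_eq, e_re, e_im]
        nlinarith [Real.sin_sq_add_cos_sq θ]
      rw [h2, mul_one]
    · rintro _ ⟨z, hz, rfl⟩
      have h1 : z = c + (z - c) := by ring
      rw [mem_closedBall, dist_eq_norm] at hz
      simp only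
      rw [h1, ip_add_left]
      have := ip_le_norm (z - c) (e θ) (norm_e θ)
      linarith
  rw [perimeter]
  simp only [key]
  have h1 : ∀ θ : ℝ, ip c (e θ) + r = c.re * Real.cos ((1 : ℕ) * θ)
      + c.im * Real.sin ((1 : ℕ) * θ) + r := by
    intro θ
    rw [ip_eq, e_re, e_im]
    simp
  simp only [h1]
  have i1 : IntervalIntegrable (fun θ : ℝ => c.re * Real.cos ((1 : ℕ) * θ)) volume 0
      (2 * Real.pi) := Continuous.intervalIntegrable (by fun_prop) _ _
  have i2 : IntervalIntegrable (fun θ : ℝ => c.im * Real.sin ((1 : ℕ) * θ)) volume 0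
      (2 * Real.pi) := Continuous.intervalIntegrable (by fun_prop) _ _
  rw [intervalIntegral.integral_add (i1.add i2) (by simp), intervalIntegral.integral_add i1 i2,
    intervalIntegral.integral_const_mul, intervalIntegral.integral_const_mul,
    integral_cos_nat 1 (by norm_num), integral_sin_nat 1 (by norm_num)]
  simp

/-- The disk of radius `1 / (2 * π)` is a convex set of perimeter `1`. -/
theorem isUnitConvexSet_disk : IsUnitConvexSet (closedBall (0 : ℂ) (1 / (2 * Real.pi))) where
  nonempty := ⟨0, mem_closedBall_self (by positivity)⟩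
  isCompact := isCompact_closedBall _ _
  convex := convex_closedBall _ _
  perimeter_eq := by
    rw [perimeter_closedBall _ _ (by positivity)]
    have := Real.pi_pos
    field_simp

/-- A segment of length `ℓ` has perimeter `2 * ℓ`. -/
theorem perimeter_segment (l : ℝ) (hl : 0 ≤ l) :
    perimeter (segment ℝ (0 : ℂ) (l : ℂ)) = 2 * l := by
  have key : ∀ θ : ℝ, supportFn (segment ℝ (0 : ℂ) (l : ℂ)) θ = l * max (Real.cos θ) 0 := by
    intro θ
    rw [supportFn]
    refine IsGreatest.csSup_eq ⟨?_, ?_⟩
    · rcases le_total 0 (Real.cos θ) with h0 | h0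
      · refine ⟨l, right_mem_segment _ _ _, ?_⟩
        simp [max_eq_left h0]
      · refine ⟨0, left_mem_segment _ _ _, ?_⟩
        simp [max_eq_right h0]
    · rintro _ ⟨z, ⟨a, b, ha, hb, hab, rfl⟩, rfl⟩
      simp only [Complex.add_re, Complex.add_im, Complex.real_smul, Complex.mul_re,
        Complex.mul_im, Complex.ofReal_re, Complex.ofReal_im, Complex.zero_re, Complex.zero_im]
      have h1 : Real.cos θ ≤ max (Real.cos θ) 0 := le_max_left _ _
      have h2 : 0 ≤ max (Real.cos θ) 0 := le_max_right _ _
      have h3 : b ≤ 1 := by linarith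
      have h4 : b * Real.cos θ ≤ max (Real.cos θ) 0 := by
        calc b * Real.cos θ ≤ b * max (Real.cos θ) 0 := mul_le_mul_of_nonneg_left h1 hb
          _ ≤ 1 * max (Real.cos θ) 0 := mul_le_mul_of_nonneg_right h3 h2
          _ = _ := one_mul _
      calc _ = l * (b * Real.cos θ) := by ring
        _ ≤ _ := mul_le_mul_of_nonneg_left h4 hl
  rw [perimeter]
  simp only [key]
  rw [intervalIntegral.integral_const_mul]
  have hpi := Real.pi_pos
  have hcont : Continuous fun θ : ℝ => max (Real.cos θ) 0 :=
    Real.continuous_cos.max continuous_const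
  have hi : ∀ a b : ℝ, IntervalIntegrable (fun θ : ℝ => max (Real.cos θ) 0) volume a b :=
    fun a b => hcont.intervalIntegrable _ _
  have h1 : ∫ θ in (0 : ℝ)..(2 * Real.pi), max (Real.cos θ) 0 = 2 := by
    rw [← intervalIntegral.integral_add_adjacent_intervals (hi 0 (Real.pi / 2)) (hi _ _),
      ← intervalIntegral.integral_add_adjacent_intervals
        (hi (Real.pi / 2) (Real.pi + Real.pi / 2)) (hi _ _)]
    have a1 : ∫ θ in (0 : ℝ)..(Real.pi / 2), max (Real.cos θ) 0
        = ∫ θ in (0 : ℝ)..(Real.pi / 2), Real.cos θ := by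
      refine intervalIntegral.integral_congr fun θ hθ => ?_
      rw [Set.uIcc_of_le (by positivity)] at hθ
      exact max_eq_left (Real.cos_nonneg_of_neg_pi_div_two_le_of_le (by linarith [hθ.1]) hθ.2)
    have a2 : ∫ θ in (Real.pi / 2)..(Real.pi + Real.pi / 2), max (Real.cos θ) 0
        = ∫ θ in (Real.pi / 2)..(Real.pi + Real.pi / 2), 0 := by
      refine intervalIntegral.integral_congr fun θ hθ => ?_
      rw [Set.uIcc_of_le (by linarith)] at hθ
      exact max_eq_right (Real.cos_nonpos_of_pi_div_two_le_of_le hθ.1 (by linarith [hθ.2]))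
    have a3 : ∫ θ in (Real.pi + Real.pi / 2)..(2 * Real.pi), max (Real.cos θ) 0
        = ∫ θ in (Real.pi + Real.pi / 2)..(2 * Real.pi), Real.cos θ := by
      refine intervalIntegral.integral_congr fun θ hθ => ?_
      rw [Set.uIcc_of_le (by linarith)] at hθ
      refine max_eq_left ?_
      rw [← Real.cos_sub_two_pi]
      exact Real.cos_nonneg_of_neg_pi_div_two_le_of_le (by linarith [hθ.1]) (by linarith [hθ.2])
    rw [a1, a2, a3, integral_cos, integral_cos]
    have b1 : Real.sin (Real.pi + Real.pi / 2) = -1 := by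
      rw [add_comm, Real.sin_add_pi, Real.sin_pi_div_two]
    rw [b1, Real.sin_two_pi, Real.sin_pi_div_two]
    simp
    norm_num
  rw [h1]
  ring

end Pool.Agent.Helper16.Disk7
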