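import Pool.Agent.Helper16.Disk7.Body

/-!
# The body is a convex set of perimeter one
-/

namespace Pool.Agent.Helper16.Disk7

open MeasureTheory Metric Complex

lemma convex_body (s : ℝ) : Convex ℝ (body s) := by
  intro x hx y hy a b ha hb hab n hn
  have h1 := hx n hn
  have h2 := hy n hn
  have h3 : ip (a • x + b • y) n = a * ip x n + b * ip y n := by
    simp only [ip_eq, Complex.add_re, Complex.add_im, Complex.real_smul, Complex.mul_re,
      Complex.mul_im, Complex.ofReal_re, Complex.ofReal_im]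
    ring
  rw [h3]
  calc a * ip x n + b * ip y n ≤ a * (s * h n) + b * (s * h n) := by gcongr
    _ = s * h n := by rw [← add_mul, hab, one_mul]

lemma isClosed_body (s : ℝ) : IsClosed (body s) := by
  have h1 : body s = ⋂ (n : ℂ) (_ : ‖n‖ = 1), {z | ip z n ≤ s * h n} := by
    ext z
    simp [body]
  rw [h1]
  refine isClosed_iInter fun n => isClosed_iInter fun _ => ?_
  refine isClosed_le ?_ continuous_const
  simp only [ip]
  fun_prop

lemma body_subset (s : ℝ) (hs : 0 ≤ s) : body s ⊆ closedBall 0 (s * 2) := by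
  intro z hz
  rw [mem_closedBall_zero_iff]
  by_cases h0 : z = 0
  · rw [h0, norm_zero]
    positivity
  have hn : 0 < ‖z‖ := norm_pos_iff.2 h0
  have h1 : ‖z / ‖z‖‖ = 1 := by
    rw [norm_div, Complex.norm_real, norm_norm, div_self hn.ne']
  have h2 := hz (z / ‖z‖) h1
  have h3 : ip z (z / ‖z‖) = ‖z‖ := by
    rw [ip_eq, Complex.div_ofReal_re, Complex.div_ofReal_im]
    have h4 := Complex.sq_norm z
    rw [Complex.normSq_apply] at h4
    field_simp
    nlinarith
  rw [h3] at h2
  refine h2.trans (mul_le_mul_of_nonneg_left ?_ hs)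
  have := (h_bounds _ h1).2
  norm_num at this ⊢
  linarith

lemma isCompact_body (s : ℝ) (hs : 0 ≤ s) : IsCompact (body s) :=
  (isCompact_closedBall (0 : ℂ) (s * 2)).of_isClosed_subset (isClosed_body s) (body_subset s hs)

lemma ball_subset_body (s : ℝ) (hs : 0 ≤ s) : closedBall 0 (s / 2) ⊆ body s := by
  intro z hz n hn
  rw [mem_closedBall_zero_iff] at hz
  have h1 := (h_bounds n hn).1
  have h2 : s * (1 / 2) ≤ s * h n := mul_le_mul_of_nonneg_left (by norm_num at h1 ⊢; linarith) hs
  linarith [ip_le_norm z n hn]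

/-- The unit vector of angle `θ`. -/
noncomputable def e (θ : ℝ) : ℂ := Complex.exp (θ * I)

lemma norm_e (θ : ℝ) : ‖e θ‖ = 1 := Complex.norm_exp_ofReal_mul_I θ

lemma e_re (θ : ℝ) : (e θ).re = Real.cos θ := by
  rw [e, Complex.exp_ofReal_mul_I_re]

lemma e_im (θ : ℝ) : (e θ).im = Real.sin θ := by
  rw [e, Complex.exp_ofReal_mul_I_im]

lemma e_pow (θ : ℝ) (k : ℕ) : e θ ^ k = e (k * θ) := by
  rw [e, e, ← Complex.exp_nat_mul]
  congr 1
  push_cast
  ring

lemma e_mul (a b : ℝ) : e a * e b = e (a + b) := by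
  rw [e, e, e, ← Complex.exp_add]
  congr 1
  push_cast
  ring

lemma exists_e (z : ℂ) (hz : ‖z‖ = 1) : ∃ θ : ℝ, z = e θ := by
  refine ⟨Complex.arg z, ?_⟩
  have := Complex.norm_mul_exp_arg_mul_I z
  rw [hz] at this
  rw [e]
  simpa using this.symm

lemma supportFn_body (s : ℝ) (hs : 0 ≤ s) (θ : ℝ) : supportFn (body s) θ = s * h (e θ) := by
  have key : ∀ z : ℂ, z.re * Real.cos θ + z.im * Real.sin θ = ip z (e θ) := by
    intro z
    rw [ip_eq, e_re, e_im]
  rw [supportFn]
  simp only [key]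
  refine IsGreatest.csSup_eq ⟨⟨pt s (e θ), pt_mem s hs _ (norm_e θ), ip_pt_self s _ (norm_e θ)⟩, ?_⟩
  rintro _ ⟨z, hz, rfl⟩
  exact hz _ (norm_e θ)

lemma integral_cos_nat (k : ℕ) (hk : k ≠ 0) :
    ∫ θ in (0 : ℝ)..(2 * Real.pi), Real.cos (k * θ) = 0 := by
  have hk' : (k : ℝ) ≠ 0 := Nat.cast_ne_zero.2 hk
  rw [intervalIntegral.integral_comp_mul_left (f := fun x => Real.cos x) hk', integral_cos]
  have h1 : Real.sin ((k : ℝ) * (2 * Real.pi)) = 0 := by
    have := Real.sin_nat_mul_pi (2 * k)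
    push_cast at this
    rw [← this]
    ring_nf
  rw [h1]
  simp

lemma integral_sin_nat (k : ℕ) (hk : k ≠ 0) :
    ∫ θ in (0 : ℝ)..(2 * Real.pi), Real.sin (k * θ) = 0 := by
  have hk' : (k : ℝ) ≠ 0 := Nat.cast_ne_zero.2 hk
  rw [intervalIntegral.integral_comp_mul_left (f := fun x => Real.sin x) hk', integral_sin]
  have h1 : Real.cos ((k : ℝ) * (2 * Real.pi)) = 1 := by
    have := Real.cos_nat_mul_two_pi k
    rw [← this]
  rw [h1]
  simp

lemma perimeter_body (s : ℝ) (hs : 0 ≤ s) : perimeter (body s) = s * (2 * Real.pi) := by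
  rw [perimeter]
  simp only [supportFn_body s hs]
  rw [intervalIntegral.integral_const_mul]
  congr 1
  have h1 : ∀ θ : ℝ, h (e θ) = 1 + ε * (3 / 8 * Real.cos ((6 : ℕ) * θ)
      + 1 / 4 * Real.cos ((12 : ℕ) * θ) + 1 / 8 * Real.cos ((18 : ℕ) * θ)
      + 5 * Real.sin ((3 : ℕ) * θ)) := by
    intro θ
    rw [h, U, e_pow, e_pow, e_pow, e_pow, e_re, e_re, e_re, e_im]
  simp only [h1]
  have c1 : ∀ k : ℕ, Continuous fun θ : ℝ => Real.cos (k * θ) := fun k => by fun_prop
  have c2 : ∀ k : ℕ, Continuous fun θ : ℝ => Real.sin (k * θ) := fun k => by fun_prop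
  have i1 : ∀ (a : ℝ) (k : ℕ), IntervalIntegrable (fun θ : ℝ => a * Real.cos (k * θ)) volume 0
      (2 * Real.pi) := fun a k => (continuous_const.mul (c1 k)).intervalIntegrable _ _
  have i2 : ∀ (a : ℝ) (k : ℕ), IntervalIntegrable (fun θ : ℝ => a * Real.sin (k * θ)) volume 0
      (2 * Real.pi) := fun a k => (continuous_const.mul (c2 k)).intervalIntegrable _ _
  rw [intervalIntegral.integral_add (by simp) (by
    refine IntervalIntegrable.const_mul ?_ _
    exact (((i1 _ _).add (i1 _ _)).add (i1 _ _)).add (i2 _ _))]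
  rw [intervalIntegral.integral_const_mul,
    intervalIntegral.integral_add (((i1 _ _).add (i1 _ _)).add (i1 _ _)) (i2 _ _),
    intervalIntegral.integral_add ((i1 _ _).add (i1 _ _)) (i1 _ _),
    intervalIntegral.integral_add (i1 _ _) (i1 _ _)]
  simp only [intervalIntegral.integral_const_mul]
  rw [integral_cos_nat 6 (by norm_num), integral_cos_nat 12 (by norm_num),
    integral_cos_nat 18 (by norm_num), integral_sin_nat 3 (by norm_num)]
  simp

lemma isUnitConvexSet_body : IsUnitConvexSet (body (1 / (2 * Real.pi))) where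
  nonempty := ⟨0, ball_subset_body _ (by positivity) (by simp; positivity)⟩
  isCompact := isCompact_body _ (by positivity)
  convex := convex_body _
  perimeter_eq := by
    rw [perimeter_body _ (by positivity)]
    have := Real.pi_pos
    field_simp

end Pool.Agent.Helper16.Disk7
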